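import Mathlib
import Pool.Agent.Lib.MP_2e09cc_al.Final

/-!
Foulkes' conjecture for all `d` above a polynomial bound in `n`. With `A_{d,n}` the permutation module
of the symmetric group on the partitions of `{1, …, d n}` in `d` blocks of size `n`, the inequality
`mult (ρ, A_{n,d}) ≤ mult (ρ, A_{d,n})` holds for all irreducible representations `ρ` if
`d ≥ n (n - 1) ^ 2 / 2 - n`.
-/

set_option autoImplicit false

namespace Pool.Agent.Results.MP_2e09cc_al.PolynomialBound

open Pool.Agent.Lib.MP_2e09cc_al (transversal permModule mult)

/-- If `d ≥ n (n - 1) ^ 2 / 2 - n`, then the transversal map from the permutation module on the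
partitions in `n` blocks of size `d` to the permutation module on the partitions in `d` blocks of size
`n` is injective, and the inequality of Foulkes holds for all irreducible representations of the
symmetric group of degree `d n`. -/
theorem result (n d : ℕ) (hn : 0 < n) (hd : 0 < d) (h : n * (n - 1) ^ 2 ≤ 2 * (d + n)) :
    Function.Injective (transversal (d * n) d n) ∧
    ∀ (V : Type) [AddCommGroup V] [Module ℂ V] [FiniteDimensional ℂ V]
      (ρ : Representation ℂ (Equiv.Perm (Fin (d * n))) V) [ρ.IsIrreducible],
      mult ρ (permModule (d * n) d) ≤ mult ρ (permModule (d * n) n) :=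
  ⟨Pool.Agent.Lib.MP_2e09cc_al.transversal_injective n d hn hd h,
    fun _ _ _ _ ρ _ => Pool.Agent.Lib.MP_2e09cc_al.mult_le (d * n) d n
      (Pool.Agent.Lib.MP_2e09cc_al.transversal_injective n d hn hd h) ρ⟩

end Pool.Agent.Results.MP_2e09cc_al.PolynomialBound
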